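import Pool.Agent.H11.NY.Targets
import Pool.Agent.H11.NY2.FL
import Pool.Agent.H11.NY2.GW
import Pool.Agent.H11.NY2.I2
import Pool.Agent.H12.NY.A1
import Pool.Agent.H12.NY.INT
import Pool.Agent.H13.NY.C2
import Pool.Agent.H14.NY.NM
import Pool.Agent.H14.NY.STB
import Pool.Agent.H19.NY.AC5
import Pool.Agent.H19.NY.AF1
import Pool.Agent.H19.NY.BP
import Pool.Agent.H19.NY.GZ
import Pool.Agent.H21.NY.AF2
import Pool.Agent.H21.NY.GU
import Pool.Agent.H33.NY.A2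
import Pool.Agent.H33.NY.BC
import Pool.Agent.H33.NY.FL1
import Pool.Agent.H33.NY.H1
import Pool.Agent.H33.NY.H2
import Pool.Agent.H35.NY.GP
import Pool.Agent.H47.NY.RP
import Pool.Agent.H47.NY.SR
import Pool.Agent.H48.NY.GS
import Pool.Agent.H48.NY.H4
import Pool.Agent.H49.NY.IMP
import Pool.Agent.H50.NY.A5
import Pool.Agent.H51.NY.I3a
import Pool.Agent.H54.NY.GN
import Pool.Agent.H58.NY.DEN
import Pool.Agent.H58.NY.PLA
import Pool.Agent.H58.NY.SEL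
import Pool.Agent.H59.NY.DX
import Pool.Agent.H59.NY.GF
import Pool.Agent.H60.NY.AC
import Pool.Agent.H60.NY.I3
import Pool.Agent.H65.NY.C1
import Pool.Agent.H65.NY.PA
import Pool.Agent.H65.NY.TC
import Pool.Agent.H69.NY.C6
import Pool.Agent.H69.NY.H3
import Pool.Agent.H69.NY.I4
import Pool.Agent.H74.NY.GK
import Pool.Agent.H74.NY.I3b
import Pool.Agent.H85.NY.B1
import Pool.Agent.H85.NY.C7
import Pool.Agent.H86.NY.CD
import Pool.Agent.H86.NY.OP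
import Pool.Agent.H86.NY.P2
import Pool.Agent.H86.NY.PC
import Pool.Agent.H87.NY.AC1
import Pool.Agent.H87.NY.BG
import Pool.Agent.H87.NY.PB
import Pool.Agent.H89.NY.AC4
import Pool.Agent.H91.NY.AC2
import Pool.Agent.H91.NY.AC3
import Pool.Agent.H94.NY.C3
import Pool.Agent.H94.NY.C4
import Pool.Agent.H94.NY.C5
import Pool.Agent.H94.NY.CE
import Pool.Agent.H48.NS.FP
import Pool.Agent.H74.NS.RH

/-!
# Assembly of the board ny_modules (MP_9b2842_al)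
-/

set_option autoImplicit false

namespace Pool.Agent.H11.NY

theorem all_gp : T_GP :=
  Pool.Agent.H35.NY.GP.pf_gp

theorem all_gz : T_GZ :=
  Pool.Agent.H19.NY.GZ.pf_gz

theorem all_gf : T_GF :=
  Pool.Agent.H59.NY.GF.pf_gf all_gz

theorem all_bc : T_BC :=
  Pool.Agent.H33.NY.BC.pf_bc

theorem all_a1 : T_A1 :=
  Pool.Agent.H12.NY.A1.pf_a1

theorem all_a2 : T_A2 :=
  Pool.Agent.H33.NY.A2.pf_a2

theorem all_af1 : T_AF1 :=
  Pool.Agent.H19.NY.AF1.pf_af1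

theorem all_af2 : T_AF2 :=
  Pool.Agent.H21.NY.AF2.pf_af2

theorem all_sel : T_SEL :=
  Pool.Agent.H58.NY.SEL.pf_sel

theorem all_pla : T_PLA :=
  Pool.Agent.H58.NY.PLA.pf_pla

theorem all_den : T_DEN :=
  Pool.Agent.H58.NY.DEN.pf_den all_sel all_pla

theorem all_tc : T_TC :=
  Pool.Agent.H65.NY.TC.pf_tc

theorem all_imp : T_IMP :=
  Pool.Agent.H49.NY.IMP.pf_imp all_sel all_pla

theorem all_int : T_INT :=
  Pool.Agent.H12.NY.INT.pf_int all_sel all_pla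

theorem all_bp : T_BP :=
  Pool.Agent.H19.NY.BP.pf_bp all_den all_tc all_imp all_int

theorem all_nm : T_NM :=
  Pool.Agent.H14.NY.NM.pf_nm

theorem all_stb : T_STB :=
  Pool.Agent.H14.NY.STB.pf_stb

theorem all_a5 : T_A5 :=
  Pool.Agent.H50.NY.A5.pf_a5 all_stb

theorem all_pa : T_PA :=
  Pool.Agent.H65.NY.PA.pf_pa all_a1 all_a2 all_af1 all_af2 all_bp all_nm all_a5

theorem all_b1 : T_B1 :=
  Pool.Agent.H85.NY.B1.pf_b1 all_nm

theorem all_bg : T_BG :=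
  Pool.Agent.H87.NY.BG.pf_bg

theorem all_ac1 : T_AC1 :=
  Pool.Agent.H87.NY.AC1.pf_ac1

theorem all_ac2 : T_AC2 :=
  Pool.Agent.H91.NY.AC2.pf_ac2

theorem all_ac3 : T_AC3 :=
  Pool.Agent.H91.NY.AC3.pf_ac3

theorem all_ac4 : T_AC4 :=
  Pool.Agent.H89.NY.AC4.pf_ac4

theorem all_ac5 : T_AC5 :=
  Pool.Agent.H19.NY.AC5.pf_ac5 all_ac4

theorem all_ac : T_AC :=
  Pool.Agent.H60.NY.AC.pf_ac all_ac1 all_ac2 all_ac3 all_ac5

theorem all_pb : T_PB :=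
  Pool.Agent.H87.NY.PB.pf_pb all_b1 all_bg all_ac

theorem all_c1 : T_C1 :=
  Pool.Agent.H65.NY.C1.pf_c1

theorem all_dx : T_DX :=
  Pool.Agent.H59.NY.DX.pf_dx

theorem all_c2 : T_C2 :=
  Pool.Agent.H13.NY.C2.pf_c2 all_c1 all_dx

theorem all_c3 : T_C3 :=
  Pool.Agent.H94.NY.C3.pf_c3

theorem all_c4 : T_C4 :=
  Pool.Agent.H94.NY.C4.pf_c4 all_c3

theorem all_c5 : T_C5 :=
  Pool.Agent.H94.NY.C5.pf_c5

theorem all_c6 : T_C6 :=
  Pool.Agent.H69.NY.C6.pf_c6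

theorem all_c7 : T_C7 :=
  Pool.Agent.H85.NY.C7.pf_c7

theorem all_h1 : T_H1 :=
  Pool.Agent.H33.NY.H1.pf_h1 all_c4

theorem all_h2 : T_H2 :=
  Pool.Agent.H33.NY.H2.pf_h2 all_c1 all_dx all_c3 all_c4

theorem all_h3 : T_H3 :=
  Pool.Agent.H69.NY.H3.pf_h3

theorem all_h4 : T_H4 :=
  Pool.Agent.H48.NY.H4.pf_h4 all_c4 all_c5 all_c6

theorem all_cd : T_CD :=
  Pool.Agent.H86.NY.CD.pf_cd all_c4 all_c5 all_c6 all_c7 all_h1 all_h2 all_h3 all_h4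

theorem all_ce : T_CE :=
  Pool.Agent.H94.NY.CE.pf_ce

theorem all_pc : T_PC :=
  Pool.Agent.H86.NY.PC.pf_pc all_c2 all_cd all_ce

theorem all_p2 : T_P2 :=
  Pool.Agent.H86.NY.P2.pf_p2 all_pa all_pb all_pc

theorem all_rp : T_RP :=
  Pool.Agent.H47.NY.RP.pf_rp Pool.Agent.H74.NS.RH.pf_rh all_bc all_p2

theorem all_sr : T_SR :=
  Pool.Agent.H47.NY.SR.pf_sr Pool.Agent.H48.NSFP.pf_fp

theorem all_i2 : T_I2 :=
  Pool.Agent.H11.NY2.I2.pf_i2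

theorem all_i3a : T_I3a :=
  Pool.Agent.H51.NYI3a.pf_i3a

theorem all_i3b : T_I3b :=
  Pool.Agent.H74.NY.I3b.pf_i3b

theorem all_i3 : T_I3 :=
  Pool.Agent.H60.NY.I3.pf_i3 all_i2 all_i3a all_i3b

theorem all_fl1 : T_FL1 :=
  Pool.Agent.H33.NY.FL1.pf_fl1 all_rp all_sr all_i3

theorem all_op : T_OP :=
  Pool.Agent.H86.NY.OP.pf_op

theorem all_i4 : T_I4 :=
  Pool.Agent.H69.NY.I4.pf_i4 all_dx

theorem all_fl : T_FL :=
  Pool.Agent.H11.NY2.FL.pf_fl all_fl1 all_op all_i4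

theorem all_gk : T_GK :=
  Pool.Agent.H74.NY.GK.pf_gk

theorem all_gw : T_GW :=
  Pool.Agent.H11.NY2.GW.pf_gw

theorem all_gs : T_GS :=
  Pool.Agent.H48.NY.GS.pf_gs

theorem all_gu : T_GU :=
  Pool.Agent.H21.NY.GU.pf_gu all_fl all_gk all_gw all_gs

theorem all_gn : T_GN :=
  Pool.Agent.H54.NY.GN.pf_gn all_gp all_gf all_gu

end Pool.Agent.H11.NY
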