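import Mathlib

/-!
# Definitions for the board ny_modules (MP_9b2842_al, kernels `π`-by-soluble)
-/

set_option autoImplicit false

open Equiv (Perm)

namespace Pool.Agent.H11.NY

/-- `D` is a perfect subgroup of `L` whose image in the alternating group lives on `Δ` -/
def PerfOn {L Ω : Type} [Group L] [Fintype Ω] [DecidableEq Ω] (ψ : L →* alternatingGroup Ω)
    (Δ : Finset Ω) (D : Subgroup L) : Prop :=
  ⁅D, D⁆ = D ∧ ∀ d ∈ D, ∀ ω : Ω, ω ∉ Δ → (ψ d : Perm Ω) ω = ω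

/-- perfect subgroups living on disjoint large sets commute modulo `B` -/
def LocGrp {L Ω : Type} [Group L] [Fintype Ω] [DecidableEq Ω] (ψ : L →* alternatingGroup Ω)
    (c : ℕ) (B : Subgroup L) : Prop :=
  ∀ Δ Δ' : Finset Ω, Disjoint Δ Δ' → c ≤ Δ.card → c ≤ Δ'.card → ∀ D D' : Subgroup L,
    PerfOn ψ Δ D → PerfOn ψ Δ' D' → ∀ d ∈ D, ∀ d' ∈ D', d * d' * d⁻¹ * d'⁻¹ ∈ B

/-- perfect subgroups `D`, `D'` living on disjoint large sets satisfy `[A, D', D] ≤ B` -/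
def LocSec {L Ω : Type} [Group L] [Fintype Ω] [DecidableEq Ω] (ψ : L →* alternatingGroup Ω)
    (c : ℕ) (A B : Subgroup L) : Prop :=
  ∀ Δ Δ' : Finset Ω, Disjoint Δ Δ' → c ≤ Δ.card → c ≤ Δ'.card → ∀ D D' : Subgroup L,
    PerfOn ψ Δ D → PerfOn ψ Δ' D' → ∀ d ∈ D, ∀ d' ∈ D', ∀ x ∈ A,
      d * (d' * x * d'⁻¹ * x⁻¹) * d⁻¹ * (d' * x * d'⁻¹ * x⁻¹)⁻¹ ∈ B

/-- perfect subgroups `D`, `D'` living on disjoint large sets satisfy `[V, D', D] = 0` -/
def LocRep {L Ω K V : Type} [Group L] [Fintype Ω] [DecidableEq Ω] [Field K] [AddCommGroup V]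
    [Module K V] (ψ : L →* alternatingGroup Ω) (c : ℕ) (ρ : L →* Module.End K V) : Prop :=
  ∀ Δ Δ' : Finset Ω, Disjoint Δ Δ' → c ≤ Δ.card → c ≤ Δ'.card → ∀ D D' : Subgroup L,
    PerfOn ψ Δ D → PerfOn ψ Δ' D' → ∀ d ∈ D, ∀ d' ∈ D', ∀ v : V,
      ρ d (ρ d' v) - ρ d v - ρ d' v + v = 0

/-- commuting elements `a` of order `q` and `h` with `h ^ p = 1` or `h ^ q = a`, all non-identity
elements of the group they generate having supports of size at least `B` -/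
def HPair {L Ω : Type} [Group L] [Fintype Ω] [DecidableEq Ω] (ψ : L →* alternatingGroup Ω)
    (e B q p : ℕ) (a h : L) : Prop :=
  q.Prime ∧ 5 ≤ q ∧ q ≤ e ∧ p.Prime ∧ p ≤ e ∧ a ^ q = 1 ∧ a * h = h * a ∧
    (h ^ p = 1 ∨ (p = q ∧ h ^ q = a)) ∧ a ≠ 1 ∧ h ∉ Subgroup.zpowers a ∧
    ∀ i j : ℕ, a ^ i * h ^ j ≠ 1 → B ≤ (ψ (a ^ i * h ^ j) : Perm Ω).support.card

/-- the relation `h (1 + a + ... + a ^ (q - 1)) = 1 + a + ... + a ^ (q - 1)` -/
def Rel {L K V : Type} [Group L] [Field K] [AddCommGroup V] [Module K V]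
    (ρ : L →* Module.End K V) (a h : L) (q : ℕ) : Prop :=
  ∀ v : V, ρ h (∑ j ∈ Finset.range q, ρ (a ^ j) v) = ∑ j ∈ Finset.range q, ρ (a ^ j) v

/-- irreducible representation -/
def Irr {L K V : Type} [Group L] [Field K] [AddCommGroup V] [Module K V]
    (ρ : L →* Module.End K V) : Prop :=
  (∃ v : V, v ≠ 0) ∧
    ∀ W : Submodule K V, (∀ y : L, ∀ w ∈ W, ρ y w ∈ W) → W = ⊥ ∨ W = ⊤

/-- `M` acts by scalars -/
def Scal {L K V : Type} [Group L] [Field K] [AddCommGroup V] [Module K V]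
    (ρ : L →* Module.End K V) (M : Subgroup L) : Prop :=
  ∀ x ∈ M, ∃ z : K, ∀ v : V, ρ x v = z • v

/-- canonical lifts of the `q`-cycles to operators -/
def CanLift {L Ω K V : Type} [Group L] [Fintype Ω] [DecidableEq Ω] [Field K] [AddCommGroup V]
    [Module K V] (ψ : L →* alternatingGroup Ω) (ρ : L →* Module.End K V) (q : ℕ)
    (c : Perm Ω → Module.End K V) : Prop :=
  ∀ s : Perm Ω, s.IsCycle → s.support.card = q →
    (∃ d : L, (ψ d : Perm Ω) = s ∧ ∃ z : K, z ≠ 0 ∧ c s = z • ρ d) ∧ c s ^ q = 1 ∧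
      (∀ j : ℕ, ¬ q ∣ j → c (s ^ j) = c s ^ j) ∧
      ∀ x : L, ρ x * c s = c ((ψ x : Perm Ω) * s * (ψ x : Perm Ω)⁻¹) * ρ x

/-- the weight `χ` occurs for the operators `T i` -/
def Occ {K V : Type} [Field K] [AddCommGroup V] [Module K V] {m q : ℕ} (ω : K)
    (T : Fin m → Module.End K V) (χ : Fin m → ZMod q) : Prop :=
  ∃ v : V, v ≠ 0 ∧ ∀ i, T i v = ω ^ (χ i).val • v

/-- the operators commuting with `u` and `w` -/
def Comm2 {K V : Type} [Field K] [AddCommGroup V] [Module K V] (u w : Module.End K V) :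
    Submodule K (Module.End K V) where
  carrier := {y | y * u = u * y ∧ y * w = w * y}
  add_mem' := by
    rintro x y ⟨h1, h2⟩ ⟨h3, h4⟩
    exact ⟨by rw [add_mul, mul_add, h1, h3], by rw [add_mul, mul_add, h2, h4]⟩
  zero_mem' := ⟨by rw [zero_mul, mul_zero], by rw [zero_mul, mul_zero]⟩
  smul_mem' := by
    rintro z x ⟨h1, h2⟩
    exact ⟨by rw [smul_mul_assoc, mul_smul_comm, h1],
      by rw [smul_mul_assoc, mul_smul_comm, h2]⟩

/-- disjoint `q`-cycles -/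
def Cyc {Ω : Type} [Fintype Ω] [DecidableEq Ω] (q : ℕ) {m : ℕ} (s : Fin m → Perm Ω) : Prop :=
  (∀ i, (s i).IsCycle ∧ (s i).support.card = q) ∧
    ∀ i j, i ≠ j → Equiv.Perm.Disjoint (s i) (s j)

/-- every conjugate of the pair `a`, `h` (by even permutations) has `a` or some `h a ^ κ` in `U` -/
def TCond {Ω : Type} [Fintype Ω] [DecidableEq Ω] (q : ℕ) (a h : Perm Ω)
    (U : Subgroup (Perm Ω)) : Prop :=
  ∀ x ∈ alternatingGroup Ω, x * a * x⁻¹ ∈ U ∨ ∃ κ < q, x * (h * a ^ κ) * x⁻¹ ∈ U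

/-- commuting permutations of orders dividing `q`, `s` with large supports -/
def LPair {Ω : Type} [Fintype Ω] [DecidableEq Ω] (e B q s : ℕ) (a h : Perm Ω) : Prop :=
  q.Prime ∧ q ≤ e ∧ 0 < s ∧ s ≤ e ∧ a ^ q = 1 ∧ h ^ s = 1 ∧ a * h = h * a ∧
    B ≤ a.support.card ∧ ∀ κ < q, B ≤ (h * a ^ κ).support.card

/-- finite subgroup with an alternating quotient whose kernel is `π`-by-soluble -/
def SGood {G : Type} [Group G] (π : Finset ℕ) (L : Subgroup G) (n : ℕ)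
    (φ : L →* alternatingGroup (Fin n)) : Prop :=
  Finite L ∧ Function.Surjective φ ∧
    ∃ d : ℕ, ∀ p : ℕ, p.Prime → p ∣ Nat.card (derivedSeries φ.ker d) → p ∈ π

/-- the group is covered by such subgroups of large degree -/
def SCover (G : Type) [Group G] (π : Finset ℕ) : Prop :=
  ∀ (F : Finset G) (k : ℕ), ∃ (L : Subgroup G) (n : ℕ) (φ : L →* alternatingGroup (Fin n)),
    SGood π L n φ ∧ (∀ x ∈ F, x ∈ L) ∧ k ≤ n

/-- the group is covered by such perfect subgroups of large degree -/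
def PCover (G : Type) [Group G] (π : Finset ℕ) : Prop :=
  ∀ (F : Finset G) (k : ℕ), ∃ (L : Subgroup G) (n : ℕ) (φ : L →* alternatingGroup (Fin n)),
    SGood π L n φ ∧ commutator L = ⊤ ∧ (∀ x ∈ F, x ∈ L) ∧ k ≤ n

/-- `a` has order `q`, `h` is in the normal `p`-subgroup `P` of the centralizer of `a` -/
def APair {G : Type} [Group G] (q p : ℕ) (a h : G) (P : Subgroup G) : Prop :=
  a ^ q = 1 ∧ a ≠ 1 ∧ (∀ x ∈ P, a * x = x * a) ∧
    (∀ x : G, a * x = x * a → ∀ y ∈ P, x * y * x⁻¹ ∈ P) ∧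
    (∀ x ∈ P, ∃ k : ℕ, x ^ (p ^ k) = 1) ∧ h ∈ P ∧ h ∉ Subgroup.zpowers a ∧
    (h ^ p = 1 ∨ (p = q ∧ h ^ q = a))

/-- every centralizer of a non-identity element is almost soluble -/
def AS (G : Type) [Group G] : Prop :=
  ∀ g : G, g ≠ 1 → ∃ H : Subgroup (Subgroup.centralizer ({g} : Set G)),
    H.index ≠ 0 ∧ Group.IsSolvable H

end Pool.Agent.H11.NY
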