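import Pool.Agent.H11.NY.Defs

/-!
# Targets of the board ny_modules (MP_9b2842_al, kernels `π`-by-soluble)

Every module `XX` proves `pf_xx : T_A → T_B → ... → T_XX` (the dependencies of the row are
hypotheses), so all modules can be written in parallel.
-/

set_option autoImplicit false
set_option linter.unusedVariables false

open Equiv (Perm)

namespace Pool.Agent.H11.NY

/-! ### Groups with an alternating quotient -/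

def T_NM : Prop := ∀ (L Ω : Type) [Group L] [Finite L] [Fintype Ω] [DecidableEq Ω]
    (ψ : L →* alternatingGroup Ω), 5 ≤ Fintype.card Ω → Function.Surjective ψ →
    commutator L = ⊤ → Group.IsSolvable ψ.ker → ∀ M : Subgroup L, M.Normal →
    (∃ x ∈ M, ψ x ≠ 1) → M = ⊤

def T_STB : Prop := ∀ (L Ω : Type) [Group L] [Finite L] [Fintype Ω] [DecidableEq Ω]
    (ψ : L →* alternatingGroup Ω), 6 ≤ Fintype.card Ω → Function.Surjective ψ →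
    Group.IsSolvable ψ.ker → ∀ (ω : Ω) (C : Subgroup L),
    (∀ x ∈ C, (ψ x : Perm Ω) ω = ω) →
    (∀ y : L, (ψ y : Perm Ω) ω = ω → ∀ x ∈ C, y * x * y⁻¹ ∈ C) → (∃ x ∈ C, ψ x ≠ 1) →
    ∀ Δ : Finset Ω, ω ∉ Δ → ∀ D : Subgroup L, PerfOn ψ Δ D → D ≤ C

def T_DX : Prop := ∀ (L Ω : Type) [Group L] [Finite L] [Fintype Ω] [DecidableEq Ω]
    (ψ : L →* alternatingGroup Ω), Function.Surjective ψ → ∀ Δ : Finset Ω, 5 ≤ Δ.card →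
    ∃ D : Subgroup L, PerfOn ψ Δ D ∧ ∀ σ : alternatingGroup Ω,
      (∀ ω : Ω, ω ∉ Δ → (σ : Perm Ω) ω = ω) → ∃ d ∈ D, ψ d = σ

/-! ### Permutation actions without regular orbits -/

def T_SEL : Prop := ∀ e m : ℕ, ∃ B : ℕ, ∀ (Ω : Type) [Fintype Ω] [DecidableEq Ω]
    (a h : Perm Ω) (q s : ℕ), 0 < q → q ≤ e → 0 < s → s ≤ e → a ^ q = 1 → h ^ s = 1 →
    a * h = h * a → ∀ t : Fin m → Perm Ω, (∀ i, B ≤ (t i).support.card) →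
    ∃ ω : Fin m → Ω, (∀ i, t i (ω i) ≠ ω i) ∧
      ∀ i j, i ≠ j → ∀ k l : ℕ, (a ^ k * h ^ l) (ω j) ≠ ω i

def T_PLA : Prop := ∀ (Ω ι : Type) [Fintype Ω] [DecidableEq Ω] [Fintype ι] (f g : ι ↪ Ω),
    Fintype.card ι + 2 ≤ Fintype.card Ω → ∃ w ∈ alternatingGroup Ω, ∀ i, w (f i) = g i

def T_DEN : Prop := ∀ e : ℕ, ∃ k₀ B : ℕ, ∀ (Ω : Type) [Fintype Ω] [DecidableEq Ω]
    (q s : ℕ) (a h : Perm Ω), LPair e B q s a h → ∀ U : Subgroup (Perm Ω), TCond q a h U →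
    ∀ Φ : Finset Ω, k₀ ≤ Φ.card → ∃ u ∈ U, u ≠ 1 ∧ u.support ⊆ Φ

def T_TC : Prop := ∀ k₀ : ℕ, ∃ n₀ : ℕ, ∀ (Ω : Type) [Fintype Ω] [DecidableEq Ω]
    (U : Subgroup (Perm Ω)), n₀ ≤ Fintype.card Ω →
    (∀ Φ : Finset Ω, k₀ ≤ Φ.card → ∃ u ∈ U, u ≠ 1 ∧ u.support ⊆ Φ) →
    ∃ u ∈ U, u.IsThreeCycle

def T_IMP : Prop := ∀ e : ℕ, ∃ B : ℕ, ∀ (Ω : Type) [Fintype Ω] [DecidableEq Ω]
    (q s : ℕ) (a h : Perm Ω), LPair e B q s a h → ∀ U : Subgroup (Perm Ω), TCond q a h U →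
    MulAction.IsPretransitive U Ω → ∀ Δ : Set Ω, MulAction.IsBlock U Δ → Δ ≠ Set.univ →
    ∀ x ∈ Δ, ∀ y ∈ Δ, x = y

def T_INT : Prop := ∀ e : ℕ, ∃ B : ℕ, ∀ (Ω : Type) [Fintype Ω] [DecidableEq Ω]
    (q s : ℕ) (a h : Perm Ω), LPair e B q s a h → ∀ U : Subgroup (Perm Ω), TCond q a h U →
    ∀ S : Finset Ω, (∀ u ∈ U, ∀ x ∈ S, u x ∈ S) → 2 ≤ S.card → S.card + 2 ≤ Fintype.card Ω →
    False

def T_BP : Prop := ∀ e : ℕ, ∃ B : ℕ, ∀ (Ω : Type) [Fintype Ω] [DecidableEq Ω]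
    (q s : ℕ) (a h : Perm Ω), LPair e B q s a h → ∀ U : Subgroup (Perm Ω),
    U < alternatingGroup Ω → TCond q a h U → ∃ ω : Ω, ∀ u ∈ U, u ω = ω

/-! ### Imprimitive representations -/

def T_A1 : Prop := ∀ (L : Type) [Group L] [Finite L] (K V : Type) [Field K] [IsAlgClosed K]
    [AddCommGroup V] [Module K V] [Module.Finite K V] (ρ : L →* Module.End K V), Irr ρ →
    ∀ M : Subgroup L, M.Normal → (∀ x ∈ M, ∀ y ∈ M, ρ x * ρ y = ρ y * ρ x) → ¬ Scal ρ M →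
    ∃ (Λ : Type) (_ : Fintype Λ) (_ : DecidableEq Λ) (_ : MulAction L Λ)
      (W : Λ → Submodule K V), iSupIndep W ∧ (⨆ x, W x) = ⊤ ∧
      (∀ (y : L) (x : Λ), ∀ w ∈ W x, ρ y w ∈ W (y • x)) ∧ (∀ x, W x ≠ ⊥) ∧
      MulAction.IsPretransitive L Λ ∧ Nontrivial Λ

def T_A2 : Prop := ∀ (L Λ : Type) [Group L] [MulAction L Λ] (K V : Type) [Field K]
    [AddCommGroup V] [Module K V] (ρ : L →* Module.End K V) (W : Λ → Submodule K V),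
    iSupIndep W → (∀ (y : L) (x : Λ), ∀ w ∈ W x, ρ y w ∈ W (y • x)) → (∀ x, W x ≠ ⊥) →
    ∀ (q : ℕ) (a h : L), q.Prime → a ^ q = 1 → Rel ρ a h q →
    ∀ x : Λ, a • x = x ∨ ∃ κ < q, (h * a ^ κ) • x = x

def T_A5 : Prop := ∀ (L Ω Λ : Type) [Group L] [Finite L] [Fintype Ω] [DecidableEq Ω]
    [Fintype Λ] [MulAction L Λ] (ψ : L →* alternatingGroup Ω), 6 ≤ Fintype.card Ω →
    Function.Surjective ψ → Group.IsSolvable ψ.ker → ∀ (K V : Type) [Field K]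
    [AddCommGroup V] [Module K V] (ρ : L →* Module.End K V) (W : Λ → Submodule K V),
    iSupIndep W → (⨆ x, W x) = ⊤ → (∀ (y : L) (x : Λ), ∀ w ∈ W x, ρ y w ∈ W (y • x)) →
    ∀ f : Λ → Ω, (∀ (y : L) (x : Λ), f (y • x) = (ψ y : Perm Ω) (f x)) →
    ∀ (e q p : ℕ) (a h : L), HPair ψ e 1 q p a h → Rel ρ a h q → ∀ c : ℕ, LocRep ψ c ρ

def T_AF1 : Prop := ∀ (L : Type) [Group L] [Finite L] (N : Subgroup L), N.Normal →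
    Group.IsSolvable N → ∀ M : Subgroup L, IsCoatom M → ¬ N ≤ M →
    ∃ (r : ℕ) (A : Subgroup L), r.Prime ∧ A.Normal ∧
      (∀ x ∈ A, ∀ y ∈ A, x * y * x⁻¹ * y⁻¹ ∈ M.normalCore) ∧
      (∀ x ∈ A, ∃ k : ℕ, x ^ (r ^ k) ∈ M.normalCore) ∧ M.normalCore ≤ A ∧
      (∀ x ∈ A, x ∈ M → x ∈ M.normalCore) ∧ ∀ y : L, ∃ x ∈ A, x⁻¹ * y ∈ M

def T_AF2 : Prop := ∀ (L : Type) [Group L] [Finite L] (M A : Subgroup L) (r : ℕ),
    r.Prime → A.Normal → (∀ x ∈ A, ∀ y ∈ A, x * y * x⁻¹ * y⁻¹ ∈ M.normalCore) →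
    (∀ x ∈ A, ∃ k : ℕ, x ^ (r ^ k) ∈ M.normalCore) → M.normalCore ≤ A →
    (∀ x ∈ A, x ∈ M → x ∈ M.normalCore) → (∀ y : L, ∃ x ∈ A, x⁻¹ * y ∈ M) →
    ∀ (q p : ℕ) (a h : L), q.Prime → 3 ≤ q → p.Prime → q ≠ r → a ^ q = 1 →
    a * h = h * a → (h ^ p = 1 ∨ (p = q ∧ h ^ q = a)) →
    (∀ x : L, x⁻¹ * a * x ∈ M ∨ ∃ κ < q, x⁻¹ * (h * a ^ κ) * x ∈ M) →
    a ∈ M.normalCore ∨ ∃ κ < q, h * a ^ κ ∈ M.normalCore

def T_PA : Prop := ∀ e : ℕ, ∃ B : ℕ, ∀ (L Ω : Type) [Group L] [Finite L] [Fintype Ω]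
    [DecidableEq Ω] (ψ : L →* alternatingGroup Ω), Function.Surjective ψ →
    commutator L = ⊤ → Group.IsSolvable ψ.ker → ∀ (K V : Type) [Field K] [IsAlgClosed K]
    [AddCommGroup V] [Module K V] [Module.Finite K V] (ρ : L →* Module.End K V), Irr ρ →
    ∀ M : Subgroup L, M.Normal → M ≤ ψ.ker →
    (∀ x ∈ M, ∀ y ∈ M, ρ x * ρ y = ρ y * ρ x) → ¬ Scal ρ M →
    (∀ r : ℕ, r.Prime → ∃ (q p : ℕ) (a h : L), q ≠ r ∧ HPair ψ e B q p a h ∧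
      (q : K) ≠ 0 ∧ (p : K) ≠ 0 ∧ Rel ρ a h q) → LocRep ψ e ρ

/-! ### The extraspecial case -/

def T_B1 : Prop := ∀ (L Ω : Type) [Group L] [Finite L] [Fintype Ω] [DecidableEq Ω]
    (ψ : L →* alternatingGroup Ω), 5 ≤ Fintype.card Ω → Function.Surjective ψ →
    commutator L = ⊤ → Group.IsSolvable ψ.ker → ∀ (K V : Type) [Field K] [IsAlgClosed K]
    [AddCommGroup V] [Module K V] [Module.Finite K V] (ρ : L →* Module.End K V), Irr ρ →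
    ∀ M : Subgroup L, M.Normal → M ≤ ψ.ker → ¬ Scal ρ M →
    (∀ M' : Subgroup L, M'.Normal → M' < M → Scal ρ M') →
    (¬ ∀ x ∈ M, ∀ y ∈ M, ρ x * ρ y = ρ y * ρ x) →
    ∃ (Z : Subgroup L) (r : ℕ), r.Prime ∧ Z.Normal ∧ Z ≤ M ∧
      (∀ x ∈ M, x ∈ Z ↔ ∃ z : K, ∀ v : V, ρ x v = z • v) ∧
      (∀ x ∈ M, ∀ y ∈ M, x * y * x⁻¹ * y⁻¹ ∈ Z) ∧ (∀ x ∈ M, x ^ r ∈ Z) ∧
      (∀ x ∈ M, (∀ y ∈ M, ρ x * ρ y = ρ y * ρ x) → x ∈ Z) ∧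
      ∀ y : L, (∀ x ∈ M, y * x * y⁻¹ * x⁻¹ ∈ Z) → ψ y = 1

def T_BG : Prop := ∀ (L Ω : Type) [Group L] [Finite L] [Fintype Ω] [DecidableEq Ω]
    (ψ : L →* alternatingGroup Ω), Function.Surjective ψ → ∀ (M Z : Subgroup L) (r : ℕ),
    M.Normal → Z.Normal → Z ≤ M → r.Prime → (∀ x ∈ M, ∀ y ∈ M, x * y * x⁻¹ * y⁻¹ ∈ Z) →
    (∀ x ∈ M, x ^ r ∈ Z) → (∀ y : L, (∀ x ∈ M, y * x * y⁻¹ * x⁻¹ ∈ Z) → ψ y = 1) →
    ∀ (b s : ℕ), 0 < b → s.Prime → 3 ≤ s → b * b < s → ∀ t : L,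
    s ≤ (ψ t : Perm Ω).cycleFactorsFinset.card →
    b * Nat.card {x : L // x ∈ M ∧ t * x * t⁻¹ * x⁻¹ ∈ Z} < Nat.card M

def T_AC1 : Prop := ∀ (L : Type) [Group L] [Finite L] (K V : Type) [Field K]
    [IsAlgClosed K] [AddCommGroup V] [Module K V] [Module.Finite K V]
    (ρ : L →* Module.End K V), (∃ v : V, v ≠ 0) → ∀ M Z : Subgroup L, M.Normal → Z ≤ M →
    (∀ x ∈ M, x ∈ Z ↔ ∃ z : K, ∀ v : V, ρ x v = z • v) →
    (∀ x ∈ M, ∀ y ∈ M, x * y * x⁻¹ * y⁻¹ ∈ Z) →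
    (∀ x ∈ M, (∀ y ∈ M, ρ x * ρ y = ρ y * ρ x) → x ∈ Z) →
    ∃ (d : ℕ) (A : Subalgebra K (Module.End K V))
      (Θ : A ≃ₐ[K] Module.End K (Fin d → K)), 0 < d ∧ Nat.card M = d * d * Nat.card Z ∧
      Subalgebra.toSubmodule A = Submodule.span K {y | ∃ x ∈ M, y = ρ x}

def T_AC2 : Prop := ∀ (L : Type) [Group L] [Finite L] (K V : Type) [Field K]
    [IsAlgClosed K] [AddCommGroup V] [Module K V] (ρ : L →* Module.End K V)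
    (M : Subgroup L), M.Normal → ∀ (d : ℕ) (A : Subalgebra K (Module.End K V))
    (Θ : A ≃ₐ[K] Module.End K (Fin d → K)), 0 < d →
    Subalgebra.toSubmodule A = Submodule.span K {y | ∃ x ∈ M, y = ρ x} →
    ∀ (q p : ℕ) (a h : L), q.Prime → p.Prime → ¬ q ∣ d →
    a ^ q = 1 → a * h = h * a → (h ^ p = 1 ∨ (p = q ∧ h ^ q = a)) →
    ∃ u w : Module.End K (Fin d → K), u * w = w * u ∧ u ^ q = 1 ∧
      ((h ^ p = 1 ∧ w ^ p = 1) ∨ (p = q ∧ h ^ q = a ∧ w ^ q = u)) ∧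
      (∀ y y' : A, (y' : Module.End K V) * ρ a = ρ a * (y : Module.End K V) →
        Θ y' * u = u * Θ y) ∧
      ∀ y y' : A, (y' : Module.End K V) * ρ h = ρ h * (y : Module.End K V) →
        Θ y' * w = w * Θ y

def T_AC3 : Prop := ∀ (L : Type) [Group L] [Finite L] (K V : Type) [Field K]
    [AddCommGroup V] [Module K V] [Module.Finite K V] (ρ : L →* Module.End K V)
    (M Z : Subgroup L), M.Normal → Z ≤ M →
    (∀ x ∈ M, x ∈ Z ↔ ∃ z : K, ∀ v : V, ρ x v = z • v) →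
    (∀ x ∈ M, ∀ y ∈ M, x * y * x⁻¹ * y⁻¹ ∈ Z) →
    ∀ (d : ℕ) (A : Subalgebra K (Module.End K V)) (Θ : A ≃ₐ[K] Module.End K (Fin d → K)),
    0 < d → Nat.card M = d * d * Nat.card Z →
    Subalgebra.toSubmodule A = Submodule.span K {y | ∃ x ∈ M, y = ρ x} →
    ∀ (a h : L), a * h = h * a → ∀ u w : Module.End K (Fin d → K), IsUnit u → IsUnit w →
    (∀ y y' : A, (y' : Module.End K V) * ρ a = ρ a * (y : Module.End K V) →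
      Θ y' * u = u * Θ y) →
    (∀ y y' : A, (y' : Module.End K V) * ρ h = ρ h * (y : Module.End K V) →
      Θ y' * w = w * Θ y) →
    ∀ b : ℕ, (∀ t ∈ Subgroup.closure {a, h}, t ≠ 1 →
      Nat.card {x : L // x ∈ M ∧ t * x * t⁻¹ * x⁻¹ ∈ Z} ≤ b) →
    Module.finrank K (Comm2 u w) * Nat.card (Subgroup.closure {a, h}) * Nat.card Z ≤
      Nat.card M + Nat.card (Subgroup.closure {a, h}) * b

def T_AC4 : Prop := ∀ (K : Type) [Field K] (d : ℕ) (u w : Module.End K (Fin d → K)),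
    u * w = w * u → ∀ X : Finset (K × K),
    (⨆ x ∈ X, (Module.End.eigenspace u x.1 ⊓ Module.End.eigenspace w x.2)) = ⊤ →
    d * d ≤ X.card * Module.finrank K (Comm2 u w)

def T_AC5 : Prop := ∀ (K : Type) [Field K] [IsAlgClosed K] (L : Type) [Group L] [Finite L]
    (d q p cM cZ b e : ℕ) (a h : L) (u w : Module.End K (Fin d → K)), 0 < d → q.Prime →
    p.Prime → q ≤ e → p ≤ e → (q : K) ≠ 0 → (p : K) ≠ 0 → a ^ q = 1 → a ≠ 1 →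
    a * h = h * a → h ∉ Subgroup.zpowers a → u * w = w * u → u ^ q = 1 →
    ((h ^ p = 1 ∧ w ^ p = 1) ∨ (p = q ∧ h ^ q = a ∧ w ^ q = u)) → 0 < cZ →
    cM = d * d * cZ →
    Module.finrank K (Comm2 u w) * Nat.card (Subgroup.closure {a, h}) * cZ ≤
      cM + Nat.card (Subgroup.closure {a, h}) * b → e ^ 6 * b < cM →
    ∀ α β : K, α ^ q = 1 → ((h ^ p = 1 ∧ β ^ p = 1) ∨ (p = q ∧ h ^ q = a ∧ β ^ q = α)) →
    ∃ v : Fin d → K, v ≠ 0 ∧ u v = α • v ∧ w v = β • v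

def T_AC : Prop := ∀ (L : Type) [Group L] [Finite L] (K V : Type) [Field K]
    [IsAlgClosed K] [AddCommGroup V] [Module K V] [Module.Finite K V]
    (ρ : L →* Module.End K V), (∃ v : V, v ≠ 0) → ∀ (M Z : Subgroup L) (r : ℕ), M.Normal →
    Z ≤ M → r.Prime → (∀ x ∈ M, x ∈ Z ↔ ∃ z : K, ∀ v : V, ρ x v = z • v) →
    (∀ x ∈ M, ∀ y ∈ M, x * y * x⁻¹ * y⁻¹ ∈ Z) → (∀ x ∈ M, x ^ r ∈ Z) →
    (∀ x ∈ M, (∀ y ∈ M, ρ x * ρ y = ρ y * ρ x) → x ∈ Z) →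
    ∀ (e q p : ℕ) (a h : L), q.Prime → p.Prime → q ≤ e → p ≤ e → q ≠ r → (q : K) ≠ 0 →
    (p : K) ≠ 0 → a ^ q = 1 → a ≠ 1 → a * h = h * a → h ∉ Subgroup.zpowers a →
    (h ^ p = 1 ∨ (p = q ∧ h ^ q = a)) →
    (∀ t ∈ Subgroup.closure {a, h}, t ≠ 1 →
      e ^ 6 * Nat.card {x : L // x ∈ M ∧ t * x * t⁻¹ * x⁻¹ ∈ Z} < Nat.card M) →
    ¬ Rel ρ a h q

def T_PB : Prop := ∀ e : ℕ, ∃ B : ℕ, ∀ (L Ω : Type) [Group L] [Finite L] [Fintype Ω]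
    [DecidableEq Ω] (ψ : L →* alternatingGroup Ω), Function.Surjective ψ →
    commutator L = ⊤ → Group.IsSolvable ψ.ker → ∀ (K V : Type) [Field K] [IsAlgClosed K]
    [AddCommGroup V] [Module K V] [Module.Finite K V] (ρ : L →* Module.End K V), Irr ρ →
    ∀ M : Subgroup L, M.Normal → M ≤ ψ.ker → ¬ Scal ρ M →
    (∀ M' : Subgroup L, M'.Normal → M' < M → Scal ρ M') →
    (¬ ∀ x ∈ M, ∀ y ∈ M, ρ x * ρ y = ρ y * ρ x) →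
    (∀ r : ℕ, r.Prime → ∃ (q p : ℕ) (a h : L), q ≠ r ∧ HPair ψ e B q p a h ∧
      (q : K) ≠ 0 ∧ (p : K) ≠ 0 ∧ Rel ρ a h q) → False

/-! ### The kernel acts by scalars -/

def T_C1 : Prop := ∀ (L Ω : Type) [Group L] [Fintype Ω] [DecidableEq Ω]
    (ψ : L →* alternatingGroup Ω) (K V : Type) [Field K] [AddCommGroup V] [Module K V]
    (ρ : L →* Module.End K V), (∃ v : V, v ≠ 0) → Scal ρ ψ.ker → ∀ D : Subgroup L,
    ⁅D, D⁆ = D → ∀ x : L, (∀ d ∈ D, ψ x * ψ d = ψ d * ψ x) → ∀ d ∈ D, ρ x * ρ d = ρ d * ρ x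

def T_C2 : Prop := ∀ (q : ℕ) (L Ω : Type) [Group L] [Finite L] [Fintype Ω]
    [DecidableEq Ω] (ψ : L →* alternatingGroup Ω) (K V : Type) [Field K] [IsAlgClosed K]
    [AddCommGroup V] [Module K V] (ρ : L →* Module.End K V), q.Prime → 5 ≤ q →
    q + 5 ≤ Fintype.card Ω → Function.Surjective ψ → (∃ v : V, v ≠ 0) → Scal ρ ψ.ker →
    ∃ c : Perm Ω → Module.End K V, CanLift ψ ρ q c

def T_C3 : Prop := ∀ (q m : ℕ) (Ω : Type) [Fintype Ω] [DecidableEq Ω], q.Prime → q ≠ 2 →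
    ∀ s : Fin m → Perm Ω, Cyc q s →
    (∀ π : Perm (Fin m), Equiv.Perm.sign π = 1 → ∃ w ∈ alternatingGroup Ω,
      (∀ x, (∀ i, s i x = x) → w x = x) ∧ ∀ i, w * s i * w⁻¹ = s (π i)) ∧
    ∀ (n : Fin m → ℕ), (∀ i, ¬ q ∣ n i) → ∀ k l : Fin m, k ≠ l →
      ∃ w ∈ alternatingGroup Ω, (∀ x, (∀ i, s i x = x) → w x = x) ∧
        ((∀ i, w * s i * w⁻¹ = s i ^ n i) ∨
          ∀ i, w * s i * w⁻¹ = s (Equiv.swap k l i) ^ n i)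

def T_C4 : Prop := ∀ (q m : ℕ) (L Ω : Type) [Group L] [Finite L] [Fintype Ω]
    [DecidableEq Ω] (ψ : L →* alternatingGroup Ω) (K V : Type) [Field K] [AddCommGroup V]
    [Module K V] (ρ : L →* Module.End K V) (c : Perm Ω → Module.End K V) (ω : K)
    (s : Fin m → Perm Ω) (χ : Fin m → ZMod q), q.Prime → 5 ≤ q → Function.Surjective ψ →
    CanLift ψ ρ q c → ω ^ q = 1 → ω ≠ 1 → Cyc q s → Occ ω (fun i => c (s i)) χ →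
    (∀ π : Perm (Fin m), Equiv.Perm.sign π = 1 →
      Occ ω (fun i => c (s i)) (fun i => χ (π i))) ∧
    ∀ μ : Fin m → ZMod q, (∀ i, μ i ≠ 0) → ∀ k l : Fin m, k ≠ l →
      Occ ω (fun i => c (s i)) (fun i => μ i * χ i) ∨
        Occ ω (fun i => c (s i)) (fun i => μ (Equiv.swap k l i) * χ (Equiv.swap k l i))

def T_C5 : Prop := ∀ (q m : ℕ) (K V : Type) [Field K] [AddCommGroup V] [Module K V]
    (ω : K), q.Prime → ω ^ q = 1 → ω ≠ 1 → (q : K) ≠ 0 → ∀ T : Fin m → Module.End K V,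
    (∀ i, T i ^ q = 1) → (∀ i j, T i * T j = T j * T i) → ∀ (i j : Fin m) (v : V),
    T i (T j v) - T i v - T j v + v ≠ 0 →
    ∃ χ : Fin m → ZMod q, Occ ω T χ ∧ χ i ≠ 0 ∧ χ j ≠ 0

def T_C6 : Prop := ∀ (q m : ℕ), q.Prime → 5 ≤ q → 3 ≤ m → ∀ (χ : Fin m → ZMod q)
    (i j : Fin m), i ≠ j → χ i ≠ 0 → χ j ≠ 0 → ∀ τ : ZMod q, ∃ μ : Fin m → ZMod q,
    (∀ k, μ k ≠ 0) ∧ ∑ k, μ k * χ k = τ ∧ ∃ k l, μ k * χ k ≠ μ l * χ l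

def T_C7 : Prop := ∀ (q m : ℕ) (L Ω : Type) [Group L] [Finite L] [Fintype Ω]
    [DecidableEq Ω] (ψ : L →* alternatingGroup Ω) (K V : Type) [Field K] [AddCommGroup V]
    [Module K V] (ρ : L →* Module.End K V) (c : Perm Ω → Module.End K V) (ω : K)
    (s : Fin m → Perm Ω) (a : L), q.Prime → (∃ v : V, v ≠ 0) → Scal ρ ψ.ker →
    CanLift ψ ρ q c → ω ^ q = 1 → ω ≠ 1 → (q : K) ≠ 0 → Cyc q s → a ^ q = 1 →
    (ψ a : Perm Ω) = (List.ofFn s).prod →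
    ∃ ζ : ZMod q, ∀ (χ : Fin m → ZMod q) (v : V),
      (∀ i, c (s i) v = ω ^ (χ i).val • v) → ρ a v = ω ^ (ζ + ∑ i, χ i).val • v

/-- setting of the modules `H1`, `H2`, `H3`: the operators `c (s i)` and the pair `a`, `h` -/
def Setting (q m : ℕ) {L Ω K V : Type} [Group L] [Fintype Ω] [DecidableEq Ω] [Field K]
    [AddCommGroup V] [Module K V] (ψ : L →* alternatingGroup Ω) (ρ : L →* Module.End K V)
    (c : Perm Ω → Module.End K V) (ω : K) (s : Fin m → Perm Ω) (a h : L) (ζ : ZMod q) :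
    Prop :=
  q.Prime ∧ 5 ≤ q ∧ q + 5 ≤ m ∧ Function.Surjective ψ ∧ (∃ v : V, v ≠ 0) ∧ Scal ρ ψ.ker ∧
    CanLift ψ ρ q c ∧ ω ^ q = 1 ∧ ω ≠ 1 ∧ (q : K) ≠ 0 ∧ Cyc q s ∧ a * h = h * a ∧
    (ψ a : Perm Ω) = (List.ofFn s).prod ∧
    (∀ (χ : Fin m → ZMod q) (v : V), (∀ i, c (s i) v = ω ^ (χ i).val • v) →
      ρ a v = ω ^ (ζ + ∑ i, χ i).val • v) ∧
    ∀ v : V, ρ a v = v → ρ h v = v

def T_H1 : Prop := ∀ (q m : ℕ) (L Ω : Type) [Group L] [Finite L] [Fintype Ω]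
    [DecidableEq Ω] (ψ : L →* alternatingGroup Ω) (K V : Type) [Field K] [AddCommGroup V]
    [Module K V] (ρ : L →* Module.End K V) (c : Perm Ω → Module.End K V) (ω : K)
    (s : Fin m → Perm Ω) (a h : L) (ζ : ZMod q), Setting q m ψ ρ c ω s a h ζ →
    (∃ i j, i ≠ j ∧ (ψ h : Perm Ω) * s i * (ψ h : Perm Ω)⁻¹ = s j) →
    ∀ χ : Fin m → ZMod q, Occ ω (fun i => c (s i)) χ → ζ + ∑ i, χ i = 0 →
      ∀ k l, χ k = χ l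

def T_H2 : Prop := ∀ (q m : ℕ) (L Ω : Type) [Group L] [Finite L] [Fintype Ω]
    [DecidableEq Ω] (ψ : L →* alternatingGroup Ω) (K V : Type) [Field K] [AddCommGroup V]
    [Module K V] (ρ : L →* Module.End K V) (c : Perm Ω → Module.End K V) (ω : K)
    (s : Fin m → Perm Ω) (a h : L) (ζ : ZMod q), Setting q m ψ ρ c ω s a h ζ →
    ∀ κ : Fin m → ℕ, (∀ i, κ i < q) →
    (∀ i, ∀ x ∈ (s i).support, (ψ h : Perm Ω) x = (s i ^ κ i) x) →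
    (∃ i j, κ i ≠ κ j) →
    ∀ χ : Fin m → ZMod q, Occ ω (fun i => c (s i)) χ → ζ + ∑ i, χ i = 0 →
      ∀ k l, χ k = χ l

def T_H3 : Prop := ∀ (q m : ℕ) (L Ω : Type) [Group L] [Finite L] [Fintype Ω]
    [DecidableEq Ω] (ψ : L →* alternatingGroup Ω) (K V : Type) [Field K] [AddCommGroup V]
    [Module K V] (ρ : L →* Module.End K V) (c : Perm Ω → Module.End K V) (ω : K)
    (s : Fin m → Perm Ω) (a h : L) (ζ : ZMod q), Setting q m ψ ρ c ω s a h ζ →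
    ∀ κ : ℕ, (∀ i, ∀ x ∈ (s i).support, (ψ h : Perm Ω) x = (s i ^ κ) x) →
    (ψ h : Perm Ω) ≠ (ψ a : Perm Ω) ^ κ →
    2 * q + 2 + (ψ a : Perm Ω).support.card ≤ Fintype.card Ω →
    ∀ s' : Perm Ω, s'.IsCycle → s'.support.card = q →
    Equiv.Perm.Disjoint s' (ψ a : Perm Ω) → ∀ (χ : Fin m → ZMod q) (v : V),
    (∀ i, c (s i) v = ω ^ (χ i).val • v) → ζ + ∑ i, χ i = 0 → c s' v = v

def T_H4 : Prop := ∀ (q m : ℕ) (L Ω : Type) [Group L] [Finite L] [Fintype Ω]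
    [DecidableEq Ω] (ψ : L →* alternatingGroup Ω) (K V : Type) [Field K] [AddCommGroup V]
    [Module K V] (ρ : L →* Module.End K V) (c : Perm Ω → Module.End K V) (ω : K)
    (s : Fin m → Perm Ω) (a h : L) (ζ : ZMod q), Setting q m ψ ρ c ω s a h ζ →
    (∀ s' : Perm Ω, s'.IsCycle → s'.support.card = q →
      Equiv.Perm.Disjoint s' (ψ a : Perm Ω) → ∀ (χ : Fin m → ZMod q) (v : V),
      (∀ i, c (s i) v = ω ^ (χ i).val • v) → ζ + ∑ i, χ i = 0 → c s' v = v) →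
    ∀ s₁ s₂ : Perm Ω, s₁.IsCycle → s₁.support.card = q → s₂.IsCycle →
    s₂.support.card = q → Equiv.Perm.Disjoint s₁ s₂ →
    Equiv.Perm.Disjoint s₁ (ψ a : Perm Ω) → Equiv.Perm.Disjoint s₂ (ψ a : Perm Ω) →
    ∀ v : V, c s₁ (c s₂ v) - c s₁ v - c s₂ v + v = 0

def T_CD : Prop := ∀ e : ℕ, ∃ B : ℕ, ∀ (L Ω : Type) [Group L] [Finite L] [Fintype Ω]
    [DecidableEq Ω] (ψ : L →* alternatingGroup Ω) (K V : Type) [Field K] [IsAlgClosed K]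
    [AddCommGroup V] [Module K V] (ρ : L →* Module.End K V) (c : Perm Ω → Module.End K V)
    (q p : ℕ) (a h : L), Function.Surjective ψ → (∃ v : V, v ≠ 0) → Scal ρ ψ.ker →
    CanLift ψ ρ q c → HPair ψ e B q p a h → (q : K) ≠ 0 → Rel ρ a h q →
    ∀ s₁ s₂ : Perm Ω, s₁.IsCycle → s₁.support.card = q → s₂.IsCycle →
    s₂.support.card = q → Equiv.Perm.Disjoint s₁ s₂ →
    ∀ v : V, c s₁ (c s₂ v) - c s₁ v - c s₂ v + v = 0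

def T_CE : Prop := ∀ (e q : ℕ) (L Ω : Type) [Group L] [Finite L] [Fintype Ω]
    [DecidableEq Ω] (ψ : L →* alternatingGroup Ω) (K V : Type) [Field K] [AddCommGroup V]
    [Module K V] (ρ : L →* Module.End K V) (c : Perm Ω → Module.End K V), q.Prime →
    5 ≤ q → q ≤ e → Function.Surjective ψ → (∃ v : V, v ≠ 0) → Scal ρ ψ.ker →
    CanLift ψ ρ q c →
    (∀ s₁ s₂ : Perm Ω, s₁.IsCycle → s₁.support.card = q → s₂.IsCycle →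
      s₂.support.card = q → Equiv.Perm.Disjoint s₁ s₂ →
      ∀ v : V, c s₁ (c s₂ v) - c s₁ v - c s₂ v + v = 0) → LocRep ψ e ρ

def T_PC : Prop := ∀ e : ℕ, ∃ B : ℕ, ∀ (L Ω : Type) [Group L] [Finite L] [Fintype Ω]
    [DecidableEq Ω] (ψ : L →* alternatingGroup Ω) (K V : Type) [Field K] [IsAlgClosed K]
    [AddCommGroup V] [Module K V] (ρ : L →* Module.End K V) (q p : ℕ) (a h : L),
    Function.Surjective ψ → Scal ρ ψ.ker → HPair ψ e B q p a h → (q : K) ≠ 0 →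
    Rel ρ a h q → LocRep ψ e ρ

/-! ### Irreducible representations and chief factors -/

def T_P2 : Prop := ∀ e : ℕ, ∃ B : ℕ, ∀ (L Ω : Type) [Group L] [Finite L] [Fintype Ω]
    [DecidableEq Ω] (ψ : L →* alternatingGroup Ω), Function.Surjective ψ →
    commutator L = ⊤ → Group.IsSolvable ψ.ker → ∀ (K V : Type) [Field K] [IsAlgClosed K]
    [AddCommGroup V] [Module K V] [Module.Finite K V] (ρ : L →* Module.End K V), Irr ρ →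
    (∀ r : ℕ, r.Prime → ∃ (q p : ℕ) (a h : L), q ≠ r ∧ HPair ψ e B q p a h ∧
      (q : K) ≠ 0 ∧ (p : K) ≠ 0 ∧ Rel ρ a h q) → LocRep ψ e ρ

def T_BC : Prop := ∀ (ℓ : ℕ) [Fact ℓ.Prime] (L W : Type) [Group L] [Finite L]
    [AddCommGroup W] [Finite W] [Module (ZMod ℓ) W] (ρ : L →* Module.End (ZMod ℓ) W),
    Irr ρ → ∃ (V : Type) (_ : AddCommGroup V)
      (_ : Module (AlgebraicClosure (ZMod ℓ)) V)
      (_ : Module.Finite (AlgebraicClosure (ZMod ℓ)) V)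
      (τ : L →* Module.End (AlgebraicClosure (ZMod ℓ)) V) (f : W →+ V), Irr τ ∧
      Function.Injective f ∧ (∀ (y : L) (w : W), f (ρ y w) = τ y (f w)) ∧
      ∀ (a h : L) (q : ℕ), Rel ρ a h q → Rel τ a h q

def T_SR : Prop := ∀ (L : Type) [Group L] [Finite L] (K₀ A B : Subgroup L), K₀ ≤ B →
    B ≤ A → A.Normal → B.Normal → ∀ ℓ q p : ℕ, ℓ.Prime → q.Prime → p.Prime → q ≠ ℓ →
    p ≠ ℓ → ¬ q ∣ Nat.card K₀ → (∀ x ∈ A, ∃ k : ℕ, x ^ (ℓ ^ k) ∈ K₀) →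
    ∀ (a h : L) (P : Subgroup L), a ^ q = 1 → (∀ x ∈ P, a * x = x * a) →
    (∀ x : L, a * x = x * a → ∀ y ∈ P, x * y * x⁻¹ ∈ P) →
    (∀ x ∈ P, ∃ k : ℕ, x ^ (p ^ k) = 1) → h ∈ P →
    ∀ x ∈ A, a * x * a⁻¹ * x⁻¹ ∈ B → h * x * h⁻¹ * x⁻¹ ∈ B

def T_RP : Prop := ∀ e : ℕ, ∃ B₀ : ℕ, ∀ (H Ω : Type) [Group H] [Finite H] [Fintype Ω]
    [DecidableEq Ω] (ψ : H →* alternatingGroup Ω), Function.Surjective ψ →
    commutator H = ⊤ → Group.IsSolvable ψ.ker → ∀ ℓ : ℕ, ℓ.Prime → ∀ A B : Subgroup H,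
    A.Normal → B.Normal → B < A → A ≤ ψ.ker → IsPGroup ℓ A →
    (∀ M : Subgroup H, M.Normal → B ≤ M → M ≤ A → M = B ∨ M = A) →
    (∀ r : ℕ, r.Prime → ∃ (q p : ℕ) (a h : H), q ≠ r ∧ q ≠ ℓ ∧ p ≠ ℓ ∧
      HPair ψ e B₀ q p a h ∧ ∀ x ∈ A, a * x * a⁻¹ * x⁻¹ ∈ B → h * x * h⁻¹ * x⁻¹ ∈ B) →
    LocSec ψ e A B

/-! ### From chief factors to the group -/

def T_I2 : Prop := ∀ (H : Type) [Group H] (V D D' : Subgroup H), V.Normal →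
    (∀ x ∈ V, ∀ y ∈ V, x * y = y * x) → ⁅D, D⁆ = D → ⁅D', D'⁆ = D' →
    (∀ d ∈ D, ∀ d' ∈ D', d * d' * d⁻¹ * d'⁻¹ ∈ V) →
    (∀ d ∈ D, ∀ d' ∈ D', ∀ v ∈ V,
      d * (d' * v * d'⁻¹ * v⁻¹) * d⁻¹ = d' * v * d'⁻¹ * v⁻¹) →
    ∀ d ∈ D, ∀ d' ∈ D', d * d' = d' * d

def T_I3a : Prop := ∀ (H Ω : Type) [Group H] [Finite H] [Fintype Ω] [DecidableEq Ω]
    (ψ : H →* alternatingGroup Ω) (c : ℕ) (A B : Subgroup H), A.Normal → B.Normal →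
    B ≤ A → LocSec ψ c A B → ∀ Δ Δ' : Finset Ω, Disjoint Δ Δ' → c ≤ Δ.card →
    c ≤ Δ'.card → ∀ D D' : Subgroup H, PerfOn ψ Δ D → PerfOn ψ Δ' D' →
    ∀ d ∈ D, ∀ d' ∈ D', ∀ x ∈ A,
      (d * d' * d⁻¹ * d'⁻¹) * x * (d * d' * d⁻¹ * d'⁻¹)⁻¹ * x⁻¹ ∈ B

def T_I3b : Prop := ∀ (H : Type) [Group H] [Finite H] (J : Subgroup H), J.Normal →
    Group.IsSolvable J →
    (∀ ℓ : ℕ, ℓ.Prime → ∀ A B : Subgroup H, A.Normal → B.Normal → B < A → A ≤ J →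
      IsPGroup ℓ A → (∀ M : Subgroup H, M.Normal → B ≤ M → M ≤ A → M = B ∨ M = A) →
      ∀ y ∈ J, ∀ x ∈ A, y * x * y⁻¹ * x⁻¹ ∈ B) → Group.IsNilpotent J

def T_I3 : Prop := ∀ (H Ω : Type) [Group H] [Finite H] [Fintype Ω] [DecidableEq Ω]
    (ψ : H →* alternatingGroup Ω) (c : ℕ), Group.IsSolvable ψ.ker →
    (∀ ℓ : ℕ, ℓ.Prime → ∀ A B : Subgroup H, A.Normal → B.Normal → B < A → A ≤ ψ.ker →
      IsPGroup ℓ A → (∀ M : Subgroup H, M.Normal → B ≤ M → M ≤ A → M = B ∨ M = A) →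
      LocSec ψ c A B) → LocGrp ψ c ⊥

def T_I4 : Prop := ∀ (L Ω : Type) [Group L] [Finite L] [Fintype Ω] [DecidableEq Ω]
    (ψ : L →* alternatingGroup Ω), Function.Surjective ψ → ∀ K₀ : Subgroup L,
    K₀.Normal → K₀ ≤ ψ.ker → ∀ ℓ c₀ c : ℕ, ℓ.Prime → ¬ ℓ ∣ Nat.card K₀ →
    LocGrp ψ c₀ K₀ → 5 ≤ c → c₀ ≤ c → ∀ g : L, g ^ ℓ = 1 →
    ℓ * c ≤ (ψ g : Perm Ω).support.card →
    ∀ S : Subgroup (Subgroup.centralizer ({g} : Set L)), S.Normal → Group.IsSolvable S →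
    c.factorial ≤ 2 * S.index

def T_OP : Prop := ∀ (L : Type) [Group L] [Finite L] (p : ℕ) (N K₁ : Subgroup L),
    p.Prime → N.Normal → K₁.Normal → K₁ ≤ N → ∃ K₂ : Subgroup L, K₂.Normal ∧ K₁ ≤ K₂ ∧
      K₂ ≤ N ∧ (∀ x ∈ K₂, ∃ k : ℕ, x ^ (p ^ k) ∈ K₁) ∧
      ∀ A : Subgroup L, A.Normal → K₂ ≤ A → A ≤ N → (∀ x ∈ A, ∃ k : ℕ, x ^ (p ^ k) ∈ K₂) →
        A = K₂

def T_FL1 : Prop := ∀ e : ℕ, ∃ B : ℕ, ∀ (L Ω : Type) [Group L] [Finite L] [Fintype Ω]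
    [DecidableEq Ω] (ψ : L →* alternatingGroup Ω), Function.Surjective ψ →
    commutator L = ⊤ → ∀ K₀ : Subgroup L, K₀.Normal → K₀ ≤ ψ.ker →
    (∃ d : ℕ, (derivedSeries ψ.ker d).map ψ.ker.subtype ≤ K₀) →
    ∀ (q p : Fin 4 → ℕ) (a h : Fin 4 → L) (P : Fin 4 → Subgroup L),
    (∀ i, HPair ψ e B (q i) (p i) (a i) (h i)) → (∀ i, ¬ q i ∣ Nat.card K₀) →
    (∀ i, ∀ x ∈ P i, a i * x = x * a i) →
    (∀ i, ∀ x : L, a i * x = x * a i → ∀ y ∈ P i, x * y * x⁻¹ ∈ P i) →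
    (∀ i, ∀ x ∈ P i, ∃ k : ℕ, x ^ (p i ^ k) = 1) → (∀ i, h i ∈ P i) →
    (∀ ℓ : ℕ, ℓ.Prime → ∀ A : Subgroup L, A.Normal → K₀ < A → A ≤ ψ.ker →
      (∀ x ∈ A, ∃ k : ℕ, x ^ (ℓ ^ k) ∈ K₀) →
      ∀ r : ℕ, r.Prime → ∃ i, q i ≠ r ∧ q i ≠ ℓ ∧ p i ≠ ℓ) → LocGrp ψ e K₀

def T_FL : Prop := ∀ e c : ℕ, ∃ B : ℕ, ∀ (L Ω : Type) [Group L] [Finite L] [Fintype Ω]
    [DecidableEq Ω] (ψ : L →* alternatingGroup Ω) (π : Finset ℕ) (d : ℕ),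
    Function.Surjective ψ → commutator L = ⊤ →
    (∀ r : ℕ, r.Prime → r ∣ Nat.card (derivedSeries ψ.ker d) → r ∈ π) →
    ∀ (q p : Fin 4 → ℕ) (a h : Fin 4 → L) (P : Fin 4 → Subgroup L),
    (∀ i, HPair ψ e B (q i) (p i) (a i) (h i)) → (∀ i, q i ∉ π) → Function.Injective q →
    (∀ i, ∀ x ∈ P i, a i * x = x * a i) →
    (∀ i, ∀ x : L, a i * x = x * a i → ∀ y ∈ P i, x * y * x⁻¹ ∈ P i) →
    (∀ i, ∀ x ∈ P i, ∃ k : ℕ, x ^ (p i ^ k) = 1) → (∀ i, h i ∈ P i) →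
    ((∃ p₀ : ℕ, ∀ i, p i = p₀ ∧ q i ≠ p₀) ∨ Function.Injective p) →
    ∀ (g : L) (ℓ : ℕ), ℓ.Prime → ℓ ∉ π → (∀ i, p i ≠ ℓ) → g ^ ℓ = 1 → 5 ≤ c → e ≤ c →
    ℓ * c ≤ (ψ g : Perm Ω).support.card →
    ∀ S : Subgroup (Subgroup.centralizer ({g} : Set L)), S.Normal → Group.IsSolvable S →
    c.factorial ≤ 2 * S.index

/-! ### The simple group -/

def T_GZ : Prop := ∀ (G : Type) [Group G] [IsSimpleGroup G] (π : Finset ℕ),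
    SCover G π → ∀ x : G, x ≠ 1 → ∃ F : Finset G, ∀ (L : Subgroup G) (n : ℕ)
      (φ : L →* alternatingGroup (Fin n)), SGood π L n φ → (∀ y ∈ F, y ∈ L) →
        ∀ hx : x ∈ L, φ ⟨x, hx⟩ ≠ 1

def T_GP : Prop := ∀ (G : Type) [Group G] [IsSimpleGroup G] (π : Finset ℕ),
    SCover G π → PCover G π

def T_GF : Prop := ∀ (G : Type) [Group G] [IsSimpleGroup G] (π : Finset ℕ),
    SCover G π → ∀ (x₀ : G) (B₀ : ℕ), (∀ (F : Finset G) (k : ℕ), ∃ (L : Subgroup G)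
      (n : ℕ) (φ : L →* alternatingGroup (Fin n)), SGood π L n φ ∧ (∀ y ∈ F, y ∈ L) ∧
        k ≤ n ∧ ∃ hx : x₀ ∈ L, (φ ⟨x₀, hx⟩ : Perm (Fin n)).support.card ≤ B₀) →
    ∃ (I : Type) (U : Ultrafilter I) (n : I → ℕ) (act : ∀ i, G → Perm (Fin (n i))),
      (∀ y z : G, ∀ᶠ i in (U : Filter I), act i (y * z) = act i y * act i z) ∧
      (∀ y : G, y ≠ 1 → ∀ᶠ i in (U : Filter I), act i y ≠ 1) ∧
      ∀ᶠ i in (U : Filter I), (act i x₀).support.card ≤ B₀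

def T_GK : Prop := ∀ (L : Type) [Group L] [Finite L] (Ω : Type) [Fintype Ω]
    [DecidableEq Ω] (φ : L →* alternatingGroup Ω) (q : ℕ), Function.Surjective φ →
    q.Prime → 3 ≤ q → ∀ a : L, a ^ q = 1 →
    (φ a : Perm Ω).support.card ≤ q * Nat.card (Subgroup.centralizer ({a} : Set L))

def T_GW : Prop := ∀ (G : Type) [Group G] (q : ℕ) (a : G), q.Prime → a ^ q = 1 →
    a ≠ 1 → (∀ x : G, ∃ k : ℕ, 0 < k ∧ x ^ k = 1) →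
    ∀ H : Subgroup (Subgroup.centralizer ({a} : Set G)), H.index ≠ 0 →
    Group.IsSolvable H → Infinite (Subgroup.centralizer ({a} : Set G)) →
    ∃ (p : ℕ) (h : G) (P : Subgroup G), p.Prime ∧ APair q p a h P

def T_GS : Prop := ∀ (π : Finset ℕ) (f : ℕ → ℕ), ∃ q : Fin 4 → ℕ, Function.Injective q ∧
    (∀ i, (q i).Prime ∧ 5 ≤ q i ∧ q i ∉ π) ∧
      ((∃ p₀ : ℕ, ∀ i, f (q i) = p₀ ∧ q i ≠ p₀) ∨ Function.Injective (fun i => f (q i)))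

def T_GU : Prop := ∀ (G : Type) [Group G] [IsSimpleGroup G] (π : Finset ℕ),
    PCover G π → (∀ x : G, x ≠ 1 → ∀ B : ℕ, ∃ (F : Finset G) (k : ℕ),
      ∀ (L : Subgroup G) (n : ℕ) (φ : L →* alternatingGroup (Fin n)), SGood π L n φ →
        (∀ y ∈ F, y ∈ L) → k ≤ n →
        ∀ hx : x ∈ L, B < (φ ⟨x, hx⟩ : Perm (Fin n)).support.card) → ¬ AS G

def T_GN : Prop := ∀ (G : Type) [Group G] [IsSimpleGroup G] (π : Finset ℕ),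
    SCover G π → ¬ AS G

end Pool.Agent.H11.NY
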